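import Pool.Agent.Lib.SmH.I.Core.Few
import Pool.Agent.Lib.SmJ.I.Many

/-!
HEIGHTS, block I, the generic grid theorem: many good pairs in every dense subset of `Y`.
-/

set_option autoImplicit false

open Finset

namespace Pool.Agent.SmH

open Pool.Agent.SmJ Pool.Agent.SmJ.IT Pool.Agent.SmA

variable {G V V1 Pl : Type*} [Group G] [AddCommGroup V] [DistribMulAction G V]
  [AddCommGroup V1] [Module (ZMod 2) V1] {S : Sys G V V1 Pl}
variable {ι : Type*} [Fintype ι] [DecidableEq ι] {X : ι → Type*} {κ : Type*} {r k : ℕ}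
  {Γ : Grid S X} {τ : Cor G V V1 X κ r}

/-- A nondegenerate cube with `PU` is good. -/
theorem core_good_of_PU {B : Set (∀ i, X i)} {c0 : κ}
    (hB : ∀ x ∈ B, x ∈ τ.Y ∧ τ.col x = c0) {y z : ∀ i, X i}
    (h : τ.PU B univ y z) (hne : ∀ i, y i ≠ z i) : τ.Good y z := by
  intro i
  have h0 : τ.col y = c0 := by
    have := h.2.1 ∅ (empty_subset _)
    rw [mix_empty] at this
    exact (hB _ this).2
  refine ⟨fun j _ => hne j, fun T _ => ⟨(hB _ (h.2.1 T (subset_univ T))).1, ?_⟩,
    fun l W _ hW hj hσ T hT => ?_⟩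
  · rw [(hB _ (h.2.1 T (subset_univ T))).2, h0]
  · refine h.2.2 l W (subset_univ W) hW hj hσ T fun x hx => ?_
    have := mem_sdiff.1 (hT hx)
    exact mem_sdiff.2 ⟨mem_univ x, this.2⟩

open Classical in
/-- I4: many good pairs. -/
theorem core_many_good [∀ i, Fintype (X i)] (hS : S.Ok) (hΓ : Γ.Ok) (hτ : τ.Ok Γ k) (N : ℕ)
    (hN : 0 < N) (C : Finset κ) (K : ℕ) (hK : 0 < K) (hC : #C ≤ K) (hC' : ∀ x ∈ τ.Y, τ.col x ∈ C)
    (hsel : ∀ x ∈ τ.Y, {b | S.IsSel1 (Γ.chi x) b}.Finite ∧
      {b | S.IsSel1 (Γ.chi x) b}.ncard ≤ N)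
    (B : Finset (∀ i, X i)) (hB : ∀ x ∈ B, x ∈ τ.Y) (δ : ℝ) (hδ : 0 ≤ δ)
    (hcard : δ * Fintype.card (∀ i, X i) ≤ #B) :
    (δ / (K : ℝ)) ^ (2 ^ Fintype.card ι) /
        (nCls (Nat.card V1) N r (Fintype.card ι) : ℝ) ^ (2 ^ Fintype.card ι) *
        (Fintype.card (∀ i, X i) : ℝ) ^ 2 ≤
      #{p : (∀ i, X i) × (∀ i, X i) | p.1 ∈ B ∧ p.2 ∈ B ∧ τ.Good p.1 p.2} +
        ∑ i, (Fintype.card (∀ i, X i) : ℝ) ^ 2 / Fintype.card (X i) := by
  have := hS.fin1
  have hcV : 0 < Nat.card V1 := Nat.card_pos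
  set d := Fintype.card ι with hd
  have hncol : (0 : ℝ) < (K : ℝ) := by exact_mod_cast hK
  have hncls : 0 < nCls (Nat.card V1) N r d := by
    unfold nCls
    positivity
  rcases eq_empty_or_nonempty C with hCe | hCne
  · -- no colours: `B` is empty
    have hBe : B = ∅ := by
      rw [eq_empty_iff_forall_notMem]
      intro x hx
      have := hC' x (hB x hx)
      rw [hCe] at this
      exact notMem_empty _ this
    rw [hBe, card_empty, Nat.cast_zero] at hcard
    have h0 : δ * Fintype.card (∀ i, X i) = 0 :=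
      le_antisymm hcard (mul_nonneg hδ (Nat.cast_nonneg _))
    have hpos : (0 : ℝ) ≤ #{p : (∀ i, X i) × (∀ i, X i) | p.1 ∈ B ∧ p.2 ∈ B ∧
        τ.Good p.1 p.2} + ∑ i, (Fintype.card (∀ i, X i) : ℝ) ^ 2 / Fintype.card (X i) := by
      positivity
    refine le_trans (le_of_eq ?_) hpos
    rcases mul_eq_zero.1 h0 with h1 | h1
    · rw [h1, zero_div, zero_pow (by positivity), zero_div, zero_mul]
    · rw [h1]
      simp
  -- the most frequent colour
  obtain ⟨c0, -, hc0⟩ := exists_le_card_fiber_of_nsmul_le_card_of_maps_to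
    (s := B) (t := C) (f := fun x => τ.col x) (b := (#B : ℝ) / (K : ℝ))
    (fun x hx => hC' x (hB x hx)) hCne (by
      rw [nsmul_eq_mul, mul_div_assoc', div_le_iff₀ hncol, mul_comm]
      apply mul_le_mul_of_nonneg_left _ (Nat.cast_nonneg _)
      exact_mod_cast hC)
  set B' : Finset (∀ i, X i) := {x ∈ B | τ.col x = c0} with hB'
  have hB'' : ∀ x ∈ (B' : Set (∀ i, X i)), x ∈ τ.Y ∧ τ.col x = c0 := by
    intro x hx
    have := mem_filter.1 (mem_coe.1 hx)
    exact ⟨hB x this.1, this.2⟩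
  have h1 := good_cubes (X := X) (τ.PU B') (nCls (Nat.card V1) N r d) hncls
    (fun U i hi a b hab => core_few_classes hS hΓ hτ B' c0 hB'' N hN
      (fun x hx => hsel x (hB'' x hx).1) U i hi a b hab)
    (δ / (K : ℝ)) (by positivity) (by
      have h2 : ({x : ∀ i, X i | τ.PU B' ∅ x x} : Finset _) = B' := by
        ext x
        rw [mem_filter]
        constructor
        · rintro ⟨-, h3⟩
          have := h3.2.1 ∅ (Subset.refl _)
          rw [mix_empty] at this
          exact mem_coe.1 this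
        · intro hx
          refine ⟨mem_univ x, fun _ _ => rfl, fun T hT => ?_, fun l W hW hne => ?_⟩
          · rw [subset_empty.1 hT, mix_empty]
            exact mem_coe.2 hx
          · rw [subset_empty.1 hW] at hne
            exact absurd hne not_nonempty_empty
      rw [h2]
      refine le_trans ?_ hc0
      rw [div_mul_eq_mul_div]
      gcongr)
  refine h1.trans ?_
  have h3 : ({p : (∀ i, X i) × (∀ i, X i) | τ.PU B' univ p.1 p.2} :
        Finset ((∀ i, X i) × (∀ i, X i))) ⊆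
      ({p : (∀ i, X i) × (∀ i, X i) | p.1 ∈ B ∧ p.2 ∈ B ∧ τ.Good p.1 p.2} :
        Finset ((∀ i, X i) × (∀ i, X i))) ∪
        univ.biUnion fun i => ({p : (∀ i, X i) × (∀ i, X i) | p.1 i = p.2 i} :
          Finset ((∀ i, X i) × (∀ i, X i))) := by
    rintro ⟨y, z⟩ hp
    have hp' : τ.PU B' univ y z := (mem_filter.1 hp).2
    rw [mem_union]
    by_cases hne : ∀ i, y i ≠ z i
    · left
      rw [mem_filter]
      refine ⟨mem_univ _, ?_, ?_, core_good_of_PU hB'' hp' hne⟩
      · have := hp'.2.1 ∅ (empty_subset _)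
        rw [mix_empty] at this
        exact (mem_filter.1 (mem_coe.1 this)).1
      · have h4 : mix univ y z = z := by
          funext i
          exact mix_mem y z (mem_univ i)
        have := hp'.2.1 univ (Subset.refl _)
        rw [h4] at this
        exact (mem_filter.1 (mem_coe.1 this)).1
    · right
      push Not at hne
      obtain ⟨i, hi⟩ := hne
      rw [mem_biUnion]
      exact ⟨i, mem_univ i, by
        rw [mem_filter]
        exact ⟨mem_univ _, hi⟩⟩
  have h5 := (card_le_card h3).trans ((card_union_le _ _).trans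
    (Nat.add_le_add_left card_biUnion_le _))
  have h6 : (#{p : (∀ i, X i) × (∀ i, X i) | τ.PU B' univ p.1 p.2} : ℝ) ≤
      #{p : (∀ i, X i) × (∀ i, X i) | p.1 ∈ B ∧ p.2 ∈ B ∧ τ.Good p.1 p.2} +
        ∑ i, (#{p : (∀ i, X i) × (∀ i, X i) | p.1 i = p.2 i} : ℝ) := by
    exact_mod_cast h5
  refine h6.trans (le_of_eq ?_)
  congr 1
  exact sum_congr rfl fun i _ => card_coinc i

end Pool.Agent.SmH
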