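import Pool.Agent.Lib.SmH.I.Core.Spec

/-!
HEIGHTS, block I: a bound of the number of local points which does not depend on the twist.
-/

set_option autoImplicit false

open Finset

namespace Pool.Agent.SmH

open Pool.Agent.SmJ Pool.Agent.SmJ.IT Pool.Agent.SmA

variable {G V V1 Pl : Type*} [Group G] [AddCommGroup V] [DistribMulAction G V]
  [AddCommGroup V1] [Module (ZMod 2) V1] {S : Sys G V V1 Pl}

/-- Two quadratic characters with the same values at `sg v` and `phi v` agree on `D v`. -/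
theorem homG_eq_D (hS : S.Ok) {chi chi' : G → ZMod 2} (h : S.HomG chi) (h' : S.HomG chi') (v : Pl)
    (h1 : chi (S.sg v) = chi' (S.sg v)) (h2 : chi (S.phi v) = chi' (S.phi v)) :
    ∀ s ∈ S.D v, chi s = chi' s := by
  intro s hs
  have h3 := homG_D hS (homG_sub hS h h') v (by rw [h1, sub_self]) (by rw [h2, sub_self]) s hs
  exact sub_eq_zero.1 h3

/-- The number of the local points fixed by `D v` is bounded, uniformly in the twist. -/
theorem invD_bound (hS : S.Ok) : ∃ B : ℕ, 0 < B ∧ ∀ chi : G → ZMod 2, S.HomG chi →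
    ∀ v, v ∉ S.good → Nat.card (invD S chi v) ≤ B := by
  classical
  let f : Pl → ZMod 2 × ZMod 2 → ℕ := fun v p =>
    if h : ∃ chi : G → ZMod 2, S.HomG chi ∧ chi (S.sg v) = p.1 ∧ chi (S.phi v) = p.2 then
      Nat.card (invD S h.choose v) else 0
  have hf : ∀ v (chi : G → ZMod 2), S.HomG chi →
      f v (chi (S.sg v), chi (S.phi v)) = Nat.card (invD S chi v) := by
    intro v chi hchi
    have h : ∃ chi' : G → ZMod 2, S.HomG chi' ∧
        chi' (S.sg v) = (chi (S.sg v), chi (S.phi v)).1 ∧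
        chi' (S.phi v) = (chi (S.sg v), chi (S.phi v)).2 := ⟨chi, hchi, rfl, rfl⟩
    have e : f v (chi (S.sg v), chi (S.phi v)) = Nat.card (invD S h.choose v) := dif_pos h
    rw [e, invD_congr (homG_eq_D hS h.choose_spec.1 hchi v h.choose_spec.2.1 h.choose_spec.2.2)]
  refine ⟨1 + ∑ v ∈ hS.good_fin.toFinset, ∑ p, f v p, by omega, fun chi hchi v hv => ?_⟩
  have hv' : v ∈ hS.good_fin.toFinset := by
    rw [Set.Finite.mem_toFinset]
    exact hv
  rw [← hf v chi hchi]
  have h1 : f v (chi (S.sg v), chi (S.phi v)) ≤ ∑ p, f v p :=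
    single_le_sum (f := f v) (fun _ _ => Nat.zero_le _) (mem_univ _)
  have h2 : ∑ p, f v p ≤ ∑ v ∈ hS.good_fin.toFinset, ∑ p, f v p :=
    single_le_sum (f := fun v => ∑ p, f v p) (fun _ _ => Nat.zero_le _) hv'
  omega

/-- The bound `L` of `grid_endH`, uniform in the twist. -/
theorem exists_L (hS : S.Ok) (k : ℕ) : ∃ L : ℕ, 0 < L ∧ ∀ chi : G → ZMod 2, S.HomG chi →
    ∏ v ∈ hS.good_fin.toFinset, (Nat.card V1 ^ k * Nat.card (invD S chi v)) ≤ L := by
  obtain ⟨B, hB, h⟩ := invD_bound hS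
  have := hS.fin1
  have hcV : 0 < Nat.card V1 := Nat.card_pos
  refine ⟨∏ _v ∈ hS.good_fin.toFinset, (Nat.card V1 ^ k * B), by positivity,
    fun chi hchi => prod_le_prod' fun v hv => Nat.mul_le_mul_left _ (h chi hchi v ?_)⟩
  rw [Set.Finite.mem_toFinset] at hv
  exact hv

end Pool.Agent.SmH
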