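import Pool.Agent.Lib.SmJ.I.Frame
import Pool.Agent.Lib.SmJ.I.UData
import Pool.Agent.Lib.Sm.I.Uni

/-!
HEIGHTS, block I, the generic grid theorem: definitions.

The same as `Twr` in `SmJ/I/Defs` with an arbitrary set `Y` of points, arbitrary Selmer cocycles
`psi x l` (of level `jl l`, over the code `c l`) at the points of `Y` and an arbitrary colour `col x`
which determines the values of the `psi x l` at the inertia elements of the places of the point.
-/

set_option autoImplicit false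

open Finset

namespace Pool.Agent.SmH

open Pool.Agent.SmJ
open Pool.Agent.Sm (Uni)

variable {G V V1 Pl : Type*} [Group G] [AddCommGroup V] [DistribMulAction G V]
  [AddCommGroup V1] [Module (ZMod 2) V1]

/-- The data of the generic grid theorem. -/
structure Cor (G V V1 : Type*) {ι : Type*} (X : ι → Type*) (κ : Type*) (r : ℕ) where
  c : Fin (r + 1) → GCode G V1 ι
  jl : Fin (r + 1) → ℕ
  sig : Fin (r + 1) → Finset ι
  Y : Set (∀ i, X i)
  psi : (∀ i, X i) → Fin (r + 1) → G → V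
  col : (∀ i, X i) → κ

namespace Cor

variable {S : Sys G V V1 Pl} {ι : Type*} {X : ι → Type*} {κ : Type*} {r : ℕ}

/-- The hypotheses. -/
structure Ok [Fintype ι] (τ : Cor G V V1 X κ r) (Γ : Grid S X) (k : ℕ) : Prop where
  Y_sub : ∀ x ∈ τ.Y, x ∈ Γ.Xs
  isC : ∀ l, Γ.IsC (τ.c l)
  jl_pos : ∀ l, 1 ≤ τ.jl l
  jl_le : ∀ l, τ.jl l ≤ k
  jl_zero : τ.jl 0 = k
  sig_card : ∀ l, (τ.sig l).card ≤ 1
  supp : ∀ l i, i ∉ τ.sig l → (τ.c l).2 i = 0
  sel : ∀ x ∈ τ.Y, ∀ l, S.IsSel (Γ.chi x) (τ.jl l) (τ.psi x l)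
  base : ∀ x ∈ τ.Y, ∀ l s, (2 : ℕ) ^ (τ.jl l - 1) • τ.psi x l s = S.iota (Γ.ch (τ.c l) x s)
  col_sg : ∀ x ∈ τ.Y, ∀ y ∈ τ.Y, τ.col x = τ.col y → ∀ l i,
    τ.psi x l (S.sg (Γ.pl i (x i))) = τ.psi y l (S.sg (Γ.pl i (y i)))

variable [DecidableEq ι]

/-- The cocycles on the vertices of the cube `(y, z)`. -/
def fam (τ : Cor G V V1 X κ r) (y z : ∀ i, X i) (l : Fin (r + 1)) (T : Finset ι) : G → V :=
  τ.psi (SmA.mix T y z) l

/-- The vertices of the `U`-cube `(y, z)` are in `B` and all its faces are minimal. -/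
def PU (τ : Cor G V V1 X κ r) (B : Set (∀ i, X i)) (U : Finset ι) (y z : ∀ i, X i) : Prop :=
  (∀ j, j ∉ U → y j = z j) ∧ (∀ T, T ⊆ U → SmA.mix T y z ∈ B) ∧
    ∀ l, ∀ W, W ⊆ U → W.Nonempty → W.card ≤ τ.jl l → Disjoint W (τ.sig l) →
      ∀ T, T ⊆ U \ W → Mn (τ.jl l) (τ.fam y z l) W T

/-- All the conditions on the faces of the cube `(x0, x)` inside the face with directions `U` at the
position `∅`: the vertices are in `Y`, with the colour of `x0`, and the faces are minimal. -/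
def FaceOk (τ : Cor G V V1 X κ r) (U : Finset ι) (x0 x : ∀ i, X i) : Prop :=
  (∀ i ∈ U, x0 i ≠ x i) ∧
  (∀ T, T ⊆ U → SmA.mix T x0 x ∈ τ.Y ∧ τ.col (SmA.mix T x0 x) = τ.col x0) ∧
    ∀ l, ∀ W, W ⊆ U → W.Nonempty → W.card ≤ τ.jl l → Disjoint W (τ.sig l) →
      ∀ T, T ⊆ U \ W → Mn (τ.jl l) (τ.fam x0 x l) W T

/-- `x` is good for `x0`: the conditions hold on all the faces `{eps_i = 0}`. -/
def Good [Fintype ι] (τ : Cor G V V1 X κ r) (x0 x : ∀ i, X i) : Prop :=
  ∀ i : ι, τ.FaceOk (univ.erase i) x0 x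

end Cor

/-! ### The lower face

The directions are `Option (Option (Fin k))`, `none = ib`, `some none = ia`. -/

section lower

variable {S : Sys G V V1 Pl} {k r : ℕ} {X : Option (Option (Fin k)) → Type*} {κ : Type*}

/-- The point with the coordinate of `x0` in the direction `none` and the other coordinates `x'`. -/
def extP (x0 : ∀ i, X i) (x' : ∀ i : Option (Fin k), X (some i)) : ∀ i, X i
  | none => x0 none
  | some i => x' i

/-- The conditions on the lower face. -/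
def Cor.FG (τ : Cor G V V1 X κ r) (x0 : ∀ i, X i) (x' : ∀ i : Option (Fin k), X (some i)) : Prop :=
  τ.FaceOk (univ.erase none) x0 (extP x0 x')

/-- `Th` has the properties needed for the cube `(x0, x)`. -/
def Cor.IsTh (τ : Cor G V V1 X κ r) (Γ : Grid S X) (x0 x : ∀ i, X i) (Th : G → V1) : Prop :=
  S.TF Th ∧ ThRel S k (Γ.del x0 x) (τ.fam x0 x 0) (univ.erase none) Th ∧
    ∀ v, v ≠ S.inf → Th (S.sg v) = 0

open Classical in
/-- The chosen function `Th`. -/
noncomputable def Cor.Th (τ : Cor G V V1 X κ r) (Γ : Grid S X) (x0 : ∀ i, X i)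
    (x' : ∀ i : Option (Fin k), X (some i)) : G → V1 :=
  if h : ∃ Th, τ.IsTh Γ x0 (extP x0 x') Th then h.choose else 0

/-- The cochains on the lower face. -/
noncomputable def Cor.UU (τ : Cor G V V1 X κ r) (Γ : Grid S X) (x0 : ∀ i, X i)
    (x' : ∀ i : Option (Fin k), X (some i)) : Uni (Fin k) G V1 where
  dl i s := Γ.th (some (some i)) (x0 (some (some i))) s + Γ.th (some (some i)) (x' (some i)) s
  Phi T := if T = univ then τ.Th Γ x0 x' else
    PhiC S k (τ.fam x0 (extP x0 x') 0) (upF T)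

/-- The hypothesis (claim) on the function `F`: if `x` is good for `x0` then `x` is in `Y` and the sum
of `F` over the cube `(x0, x)` is a symbol of `Th`. -/
def Cor.Claim (τ : Cor G V V1 X κ r) (Γ : Grid S X) (F : (∀ i, X i) → ZMod 2) (be : V1) : Prop :=
  ∀ x0 x : ∀ i, X i, τ.Good x0 x → x ∈ τ.Y ∧ ∀ Th : G → V1, τ.IsTh Γ x0 x Th →
    ∑ T : Finset (Option (Option (Fin k))), F (SmA.mix T x0 x) =
      S.e (Th (S.phi (Γ.pl none (x0 none))) + Th (S.phi (Γ.pl none (x none)))) be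

end lower

end Pool.Agent.SmH
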