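import Pool.Agent.Lib.SmH.I.Core.Defs
import Pool.Agent.Lib.SmJ.I.Delta

/-!
HEIGHTS, block I, the generic grid theorem: the alternating sum over a face all of whose proper faces
are minimal is an element of the finite group `HH Γ x W`.
-/

set_option autoImplicit false

open Finset

namespace Pool.Agent.SmH

open Pool.Agent.SmJ Pool.Agent.SmJ.IT Pool.Agent.SmA

variable {G V V1 Pl : Type*} [Group G] [AddCommGroup V] [DistribMulAction G V]
  [AddCommGroup V1] [Module (ZMod 2) V1] {S : Sys G V V1 Pl}
variable {ι : Type*} [Fintype ι] {X : ι → Type*} {κ : Type*} {r k : ℕ} {Γ : Grid S X} {τ : Cor G V V1 X κ r}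

/-- The base of the tower. -/
theorem core_base_sg (hΓ : Γ.Ok) (hτ : τ.Ok Γ k) {x : ∀ i, X i} (hx : x ∈ τ.Y)
    (l : Fin (r + 1)) (m : ι) :
    (2 : ℕ) ^ (τ.jl l - 1) • τ.psi x l (S.sg (Γ.pl m (x m))) = S.iota ((τ.c l).2 m) := by
  rw [hτ.base x hx, Grid.ch_sg_pl hΓ (hτ.isC l)]

variable [DecidableEq ι]

/-- I4: the difference cochain is in the finite group. -/
theorem core_delta_mem (hS : S.Ok) (hΓ : Γ.Ok) (hτ : τ.Ok Γ k) {c0 : κ}
    {y z : ∀ i, X i} {l : Fin (r + 1)} {W T : Finset ι} (hWT : Disjoint W T) (hne : W.Nonempty)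
    (hj : W.card ≤ τ.jl l) (hσ : Disjoint W (τ.sig l))
    (hY : ∀ T', T' ⊆ W → mix (T ∪ T') y z ∈ τ.Y ∧ τ.col (mix (T ∪ T') y z) = c0)
    (hmin : ∀ W', W' ⊂ W → W'.Nonempty → ∀ T', T' ⊆ W \ W' →
      Mn (τ.jl l) (τ.fam y z l) W' (T ∪ T')) :
    ∃ h ∈ HH Γ (mix T y z) W, ∀ s, S.iota (h s) =
      alt W (fun P => (2 : ℕ) ^ (τ.jl l - W.card) • τ.fam y z l P s) T := by
  classical
  have hsel : ∀ T', T' ⊆ W → S.IsSel (Γ.chi (mix (T ∪ T') y z)) (τ.jl l)
      (τ.fam y z l (T ∪ T')) := fun T' hT' => hτ.sel _ (hY T' hT').1 l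
  -- degenerate cubes
  by_cases hdeg : ∃ i ∈ W, y i = z i
  · obtain ⟨i, hi, hyz⟩ := hdeg
    refine ⟨fun _ => 0, HH_zero hS Γ _ W, fun s => ?_⟩
    rw [map_zero]
    symm
    apply alt_eq_zero_of_indep hi
    intro T' hT'
    have : mix (insert i (T ∪ T')) y z = mix (T ∪ T') y z := by
      funext j
      by_cases hji : j = i
      · subst hji
        rw [mix_mem y z (mem_insert_self _ _)]
        by_cases hjT : j ∈ T ∪ T'
        · rw [mix_mem y z hjT]
        · rw [mix_notMem y z hjT, hyz]
      · by_cases hjT : j ∈ T ∪ T'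
        · rw [mix_mem y z hjT, mix_mem y z (mem_insert_of_mem hjT)]
        · rw [mix_notMem y z hjT, mix_notMem y z (by
            rw [mem_insert]
            push Not
            exact ⟨hji, hjT⟩)]
    unfold Cor.fam
    rw [this]
  push Not at hdeg
  obtain ⟨h, hh, hh'⟩ := delta_hom hS (chi0 := Γ.chi y) (del := Γ.del y z)
    (Psi := τ.fam y z l) hWT hne hj (fun T' hT' => (hsel T' hT').tf)
    (fun T' hT' s t => by
      rw [← Grid.chi_mix]
      exact (hsel T' hT').coc s t)
    (fun W' hW' T' hT' => by
      rcases eq_empty_or_nonempty W' with rfl | hne'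
      · intro s
        rw [alt_empty, card_empty, Nat.sub_zero]
        exact (hsel T' (hT'.trans sdiff_subset)).lev s
      · exact hmin W' hW' hne' T' hT')
  refine ⟨h, ⟨hh, ?_, ?_⟩, hh'⟩
  · -- the local conditions
    intro v hv
    have hchi : ∀ T', T' ⊆ W → ∀ s ∈ S.D v,
        Γ.chi (mix (T ∪ T') y z) s = Γ.chi (mix T y z) s := by
      intro T' hT'
      rcases hv with hv | ⟨m, hm, rfl⟩
      · exact Grid.chi_bad hΓ _ _ hv
      · have h1 : mix (T ∪ T') y z m = mix T y z m := by
          by_cases hmT : m ∈ T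
          · rw [mix_mem y z hmT, mix_mem y z (mem_union_left _ hmT)]
          · rw [mix_notMem y z hmT, mix_notMem y z (by
              rw [mem_union]
              push Not
              exact ⟨hmT, fun hc => hm (hT' hc)⟩)]
        have h2 := hτ.Y_sub _ (hY T' hT').1
        have h3 := hτ.Y_sub _ (hY ∅ (empty_subset _)).1
        rw [union_empty] at h3
        intro s hs
        rw [← h1] at hs
        exact Grid.chi_D hS hΓ h2 h3 h1 s hs
    refine delta_loc hS (f := fun P s => (2 : ℕ) ^ (τ.jl l - W.card) • τ.fam y z l P s)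
      (W := W) (T := T) (fun T' hT' => ?_) hh'
    obtain ⟨Q, hQ⟩ := zv_congr (hchi T' hT') ((hsel T' hT').loc v)
    exact ⟨(2 : ℕ) ^ (τ.jl l - W.card) • Q, fun s hs => by
      beta_reduce
      rw [dl_nsmul, hQ s hs]⟩
  · -- unramified places
    intro v hv hvm
    apply hS.iota_inj
    rw [map_zero, hh']
    -- the values at the places of the point
    obtain ⟨cc, hcc⟩ : ∃ cc : ι → V, ∀ m,
        cc m = τ.psi (mix T y z) l (S.sg (Γ.pl m (mix T y z m))) := ⟨_, fun _ => rfl⟩
    -- the vertices which do not contain `v`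
    have hoff : ∀ T', T' ⊆ W → (∀ m, v ≠ Γ.pl m (mix (T ∪ T') y z m)) →
        τ.fam y z l (T ∪ T') (S.sg v) = 0 := fun T' hT' hm =>
      sel_sg_off hS hΓ (hsel T' hT') hv hm
    have hon : ∀ T', T' ⊆ W → ∀ m, v = Γ.pl m (mix (T ∪ T') y z m) →
        τ.fam y z l (T ∪ T') (S.sg v) = cc m := by
      intro T' hT' m hm
      have h0 := hY ∅ (empty_subset _)
      rw [union_empty] at h0
      have h1 := hτ.col_sg _ (hY T' hT').1 _ h0.1 ((hY T' hT').2.trans h0.2.symm) l m
      rw [hcc, ← h1]
      rw [hm]
      rfl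
    have hout : ∀ T', T' ⊆ W → ∀ m, m ∉ W → v ≠ Γ.pl m (mix (T ∪ T') y z m) := by
      intro T' hT' m hm
      have h1 : mix (T ∪ T') y z m = mix T y z m := by
        by_cases hmT : m ∈ T
        · rw [mix_mem y z hmT, mix_mem y z (mem_union_left _ hmT)]
        · rw [mix_notMem y z hmT, mix_notMem y z (by
            rw [mem_union]
            push Not
            exact ⟨hmT, fun hc => hm (hT' hc)⟩)]
      rw [h1]
      exact hvm m hm
    by_cases hcase : ∃ m ∈ W, v = Γ.pl m (y m) ∨ v = Γ.pl m (z m)
    · obtain ⟨m, hmW, hvm'⟩ := hcase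
      have hmT : m ∉ T := fun hc => (disjoint_left.1 hWT hmW) hc
      -- the other directions do not contain `v`
      have hoth : ∀ T', T' ⊆ W → ∀ m', m' ≠ m → v ≠ Γ.pl m' (mix (T ∪ T') y z m') := by
        intro T' _ m' hm' hc
        rcases hvm' with h1 | h1 <;>
        · rw [h1] at hc
          exact hm' (hΓ.pl_dir _ _ _ _ hc).symm
      have hval : ∀ T', T' ⊆ W → τ.fam y z l (T ∪ T') (S.sg v) =
          if v = Γ.pl m (mix (T ∪ T') y z m) then cc m else 0 := by
        intro T' hT'
        split_ifs with h1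
        · exact hon T' hT' m h1
        · refine hoff T' hT' fun m' => ?_
          by_cases hm' : m' = m
          · subst hm'
            exact h1
          · exact hoth T' hT' m' hm'
      -- the value depends only on whether `m ∈ T'`
      have hval2 : ∃ α β : V, (∀ T', T' ⊆ W → m ∉ T' →
          τ.fam y z l (T ∪ T') (S.sg v) = α) ∧ (∀ T', T' ⊆ W → m ∈ T' →
          τ.fam y z l (T ∪ T') (S.sg v) = β) ∧
          (2 : ℕ) ^ (τ.jl l - 1) • α = 0 ∧ (2 : ℕ) ^ (τ.jl l - 1) • β = 0 := by
        have hz0 : (2 : ℕ) ^ (τ.jl l - 1) • cc m = 0 := by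
          have h0 := (hY ∅ (empty_subset _)).1
          rw [union_empty] at h0
          have h1 := core_base_sg hΓ hτ h0 l m
          rw [hcc]
          rw [hτ.supp l m (disjoint_left.1 hσ hmW), map_zero] at h1
          exact h1
        refine ⟨if v = Γ.pl m (y m) then cc m else 0, if v = Γ.pl m (z m) then cc m else 0,
          fun T' hT' hm => ?_, fun T' hT' hm => ?_, ?_, ?_⟩
        · rw [hval T' hT', mix_notMem y z (by
            rw [mem_union]
            push Not
            exact ⟨hmT, hm⟩)]
        · rw [hval T' hT', mix_mem y z (mem_union_right _ hm)]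
        · split_ifs
          · exact hz0
          · exact smul_zero _
        · split_ifs
          · exact hz0
          · exact smul_zero _
      obtain ⟨α, β, h1, h2, h3, h4⟩ := hval2
      rw [alt_of_mem hmW]
      have e1 : alt (W.erase m) (fun P => (2 : ℕ) ^ (τ.jl l - W.card) •
          τ.fam y z l P (S.sg v)) T = alt (W.erase m)
          (fun _ => (2 : ℕ) ^ (τ.jl l - W.card) • α) T := by
        apply alt_congr
        intro T' hT'
        rw [h1 T' (hT'.trans (erase_subset _ _)) fun hc => notMem_erase m W (hT' hc)]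
      have e2 : alt (W.erase m) (fun P => (2 : ℕ) ^ (τ.jl l - W.card) •
          τ.fam y z l P (S.sg v)) (insert m T) = alt (W.erase m)
          (fun _ => (2 : ℕ) ^ (τ.jl l - W.card) • β) (insert m T) := by
        apply alt_congr
        intro T' hT'
        have e3 : insert m T ∪ T' = T ∪ insert m T' := by
          rw [union_insert, insert_union]
        rw [e3, h2 (insert m T') (insert_subset hmW (hT'.trans (erase_subset _ _)))
          (mem_insert_self _ _)]
      rw [e1, e2]
      rcases eq_empty_or_nonempty (W.erase m) with he | he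
      · have hc1 : W.card = 1 := by
          have := card_erase_of_mem hmW
          rw [he, card_empty] at this
          have := card_pos.2 hne
          omega
        rw [he, alt_empty, alt_empty, hc1, h3, h4, sub_zero]
      · rw [alt_const he, alt_const he, sub_zero]
    · push Not at hcase
      have : alt W (fun P => (2 : ℕ) ^ (τ.jl l - W.card) • τ.fam y z l P (S.sg v)) T =
          alt W (fun _ => (0 : V)) T := by
        apply alt_congr
        intro T' hT'
        rw [hoff T' hT', smul_zero]
        intro m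
        by_cases hm : m ∈ W
        · by_cases hmT : m ∈ T ∪ T'
          · rw [mix_mem y z hmT]
            exact (hcase m hm).2
          · rw [mix_notMem y z hmT]
            exact (hcase m hm).1
        · exact hout T' hT' m hm
      rw [this, alt_zero]

end Pool.Agent.SmH
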