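import Pool.Agent.Lib.Sm.I.GridAbs
import Pool.Agent.Lib.SmH.I.Core.UData
import Pool.Agent.Lib.SmH.I.Core.Cancel
import Pool.Agent.Lib.SmH.I.Core.Many
import Pool.Agent.Lib.SmH.I.Core.Spec
import Pool.Agent.Lib.SmJ.I.GridEnd

/-!
HEIGHTS, block I: the generic grid theorem `core_grid_end` and its form `grid_endH` for the rigid
towers of `DefsH`.
-/

set_option autoImplicit false

open Finset Polynomial

namespace Pool.Agent.SmH

open Pool.Agent.Sm (Uni ChebOdd mean_bound grid_abs)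

open Pool.Agent.SmJ Pool.Agent.SmJ.IT Pool.Agent.SmA

/-- The density constant (`K` = the number of colours, `M = #V1`). -/
noncomputable def cGrH (M m r N K : ℕ) (δ : ℝ) : ℝ :=
  (δ / (K : ℝ)) ^ (2 ^ (m + 2)) / (nCls M N r (m + 2) : ℝ) ^ (2 ^ (m + 2))

variable {G V V1 Pl : Type*} [Group G] [AddCommGroup V] [DistribMulAction G V]
  [AddCommGroup V1] [Module (ZMod 2) V1] {S : Sys G V V1 Pl}
variable {m r : ℕ} {X : Option (Option (Fin m)) → Type*} {κ : Type*} {Γ : Grid S X}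
variable {τ : Cor G V V1 X κ r}
variable [∀ i, Fintype (X i)] [∀ i, Nonempty (X i)]

/-- The generic grid theorem. -/
theorem core_grid_end {F : Type*} [Field F] (hS : S.Ok) (hΓ : Γ.Ok) (hτ : τ.Ok Γ m) (hm : 1 ≤ m)
    (hσ : τ.sig 0 = {some none}) {Fn : (∀ i, X i) → ZMod 2} {be : V1} (hcl : τ.Claim Γ Fn be)
    (hee : S.e ((τ.c 0).2 (some none)) be = 1)
    (N0 : ℕ) (hN0 : 0 < N0) (hsel : ∀ x ∈ τ.Y, {b | S.IsSel1 (Γ.chi x) b}.Finite ∧
      {b | S.IsSel1 (Γ.chi x) b}.ncard ≤ N0)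
    (Co : Finset κ) (K : ℕ) (hK : 0 < K) (hCo : #Co ≤ K) (hCo' : ∀ x ∈ τ.Y, τ.col x ∈ Co)
    (pl : F[X] → Pl) {q a C : ℕ}
    (hC : ChebOdd S.NN (fun P => S.sg (pl P)) (fun P => S.phi (pl P)) q a C)
    (po : ∀ i, X i → F[X]) (hpo : ∀ i x, Γ.pl i x = pl (po i x))
    (hpl : ∀ i x P, P.Monic → Irreducible P → pl P = Γ.pl i x → P = po i x)
    {b : ℕ} (χ : Fin b → G → ZMod 2) (hχ : ∀ j, S.HomG (χ j)) (cc : Fin b → ZMod 2)
    (D : ℕ) (hD : 4 ∣ D)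
    (hfin : {P : F[X] | P.Monic ∧ Irreducible P ∧ P.natDegree = D}.Finite)
    (hX : ∀ P : F[X], (∃ x : X none, po none x = P) ↔
      P.Monic ∧ Irreducible P ∧ P.natDegree = D ∧ ∀ j, χ j (S.phi (pl P)) = cc j)
    (B0 : Finset F[X])
    (hB0 : ∀ P : F[X], P.Monic → Irreducible P →
      pl P ∈ Γ.bad ∨ (∃ j, χ j (S.sg (pl P)) ≠ 0) → P ∈ B0)
    (hB0D : ∀ P ∈ B0, P.natDegree ≠ D)
    (hpoD : ∀ i x, (po (some i) x).natDegree ≠ D)
    (rr : ℕ) (hrr : ∀ x y z : ∀ i : Option (Fin m), X (some i), ∑ P ∈ B0, P.natDegree +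
      ∑ i, ((po (some i) (x i)).natDegree + (po (some i) (y i)).natDegree +
        (po (some i) (z i)).natDegree) ≤ rr)
    (Y : Finset (∀ i, X i)) (hY : ∀ x, x ∈ Y ↔ x ∈ τ.Y)
    (γ : ℝ) (hγ0 : 0 ≤ γ)
    (hγ : bGr (Nat.card V1) m b rr a q C D ^ 2 / (Fintype.card (X none) : ℝ) ^ 2 +
      3 * ∑ i : Option (Fin m), 1 / (Fintype.card (X (some i)) : ℝ) ≤ γ ^ 2 ^ (m + 2))
    (δ : ℝ) (hδ : 0 ≤ δ)
    (hc : ∑ i, 1 / (Fintype.card (X i) : ℝ) ≤ cGrH (Nat.card V1) m r N0 K δ / 2) (M : ℕ)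
    (hM : 2 ≤ cGrH (Nat.card V1) m r N0 K δ * M) :
    |∑ x ∈ Y, (if Fn x = 0 then (1 : ℝ) else -1)| ≤
      (δ + 2 ^ M * γ) * Fintype.card (∀ i, X i) := by
  classical
  have hcard : Fintype.card (Option (Option (Fin m))) = m + 2 := by simp
  refine grid_abs _ (fun x => if Fn x = 0 then (1 : ℝ) else -1) (fun x => ?_)
    (fun x0 x => τ.Good x0 x)
    (fun x0 x h => (hY x).2 (hcl x0 x h).1)
    (fun x0 => UD.hfac τ x0)
    (fun x0 x' P => CA.hh τ Γ (S.e.flip be).toAddMonoidHom x0 x' P)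
    (fun x0 x' P => CA.hh_abs _ _ _) (fun x0 => ?_)
    (bGr (Nat.card V1) m b rr a q C D)
    (fun x0 ya yb hab => ?_) γ hγ0 ?_ δ (cGrH (Nat.card V1) m r N0 K δ) hδ (fun B hB hBδ => ?_)
    hc M hM
  · beta_reduce
    split_ifs <;> simp
  · obtain ⟨ψ, hψ1, hψ2⟩ := UD.form hS hΓ hτ hm hσ hcl (S.e.flip be).toAddMonoidHom
      (fun w => rfl) x0
    refine ⟨ψ, hψ1, fun x hx => ?_⟩
    have h1 : CA.hh τ Γ (S.e.flip be).toAddMonoidHom x0 (fun i => x (some i)) (x none) =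
        (τ.UU Γ x0 (fun i => x (some i))).Kt (S.e.flip be).toAddMonoidHom
          (S.phi (Γ.pl none (x none))) :=
      if_pos (UD.good_FG hx)
    rw [h1]
    exact hψ2 x hx
  · exact CA.hBd_abs hS hΓ hτ hm hσ rfl (S.e.flip be).toAddMonoidHom hee pl hC po hpo hpl χ hχ
      cc D rr hD hX hfin.toFinset (fun P => by simp) B0 hB0 hB0D hpoD hrr x0 ya yb hab
  · have h1 : Fintype.card (Option (Fin m)) + 1 = m + 2 := by simp
    rw [h1]
    exact hγ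
  · have h1 := core_many_good hS hΓ hτ N0 hN0 Co K hK hCo hCo' hsel B
      (fun x hx => (hY x).1 (hB hx)) δ hδ hBδ
    rw [hcard] at h1
    exact h1

section rigid

variable {M : Type*} [AddCommGroup M] [DistribMulAction G M] {H : HData V M Pl} {kk : ℕ}
  {ta : TwH G V V1 Pl M (Option (Option (Fin m))) r}

/-- The number of colours over the grid (`M = #V1`, `L` = a bound of the number of local points). -/
def nColH (M L k r d : ℕ) : ℕ := (M ^ k) ^ ((r + 1) * d) * L ^ (r + 1)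

/-- The generic grid theorem for the rigid towers. -/
theorem grid_endH {F : Type*} [Field F] (hS : S.Ok) (hΓ : Γ.Ok) (hta : ta.Ok Γ m) (hm : 1 ≤ m)
    (hσ : ta.sig 0 = {some none}) {Fn : (∀ i, X i) → ZMod 2} {be : V1}
    (hcl : (ta.cor H Γ m kk).Claim Γ Fn be)
    (hee : S.e ((ta.c 0).2 (some none)) be = 1)
    (N0 : ℕ) (hN0 : 0 < N0) (hsel : ∀ x ∈ ta.YH H Γ m kk, {b | S.IsSel1 (Γ.chi x) b}.Finite ∧
      {b | S.IsSel1 (Γ.chi x) b}.ncard ≤ N0)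
    (L : ℕ) (x0 : ∀ i, X i) (hL : ∏ v ∈ hS.good_fin.toFinset,
      (Nat.card V1 ^ m * Nat.card (invD S (Γ.chi x0) v)) ≤ L)
    (pl : F[X] → Pl) {q a C : ℕ}
    (hC : ChebOdd S.NN (fun P => S.sg (pl P)) (fun P => S.phi (pl P)) q a C)
    (po : ∀ i, X i → F[X]) (hpo : ∀ i x, Γ.pl i x = pl (po i x))
    (hpl : ∀ i x P, P.Monic → Irreducible P → pl P = Γ.pl i x → P = po i x)
    {b : ℕ} (χ : Fin b → G → ZMod 2) (hχ : ∀ j, S.HomG (χ j)) (cc : Fin b → ZMod 2)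
    (D : ℕ) (hD : 4 ∣ D)
    (hfin : {P : F[X] | P.Monic ∧ Irreducible P ∧ P.natDegree = D}.Finite)
    (hX : ∀ P : F[X], (∃ x : X none, po none x = P) ↔
      P.Monic ∧ Irreducible P ∧ P.natDegree = D ∧ ∀ j, χ j (S.phi (pl P)) = cc j)
    (B0 : Finset F[X])
    (hB0 : ∀ P : F[X], P.Monic → Irreducible P →
      pl P ∈ Γ.bad ∨ (∃ j, χ j (S.sg (pl P)) ≠ 0) → P ∈ B0)
    (hB0D : ∀ P ∈ B0, P.natDegree ≠ D)
    (hpoD : ∀ i x, (po (some i) x).natDegree ≠ D)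
    (rr : ℕ) (hrr : ∀ x y z : ∀ i : Option (Fin m), X (some i), ∑ P ∈ B0, P.natDegree +
      ∑ i, ((po (some i) (x i)).natDegree + (po (some i) (y i)).natDegree +
        (po (some i) (z i)).natDegree) ≤ rr)
    (Y : Finset (∀ i, X i)) (hY : ∀ x, x ∈ Y ↔ x ∈ ta.YH H Γ m kk)
    (γ : ℝ) (hγ0 : 0 ≤ γ)
    (hγ : bGr (Nat.card V1) m b rr a q C D ^ 2 / (Fintype.card (X none) : ℝ) ^ 2 +
      3 * ∑ i : Option (Fin m), 1 / (Fintype.card (X (some i)) : ℝ) ≤ γ ^ 2 ^ (m + 2))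
    (δ : ℝ) (hδ : 0 ≤ δ)
    (hc : ∑ i, 1 / (Fintype.card (X i) : ℝ) ≤
      cGrH (Nat.card V1) m r N0 (nColH (Nat.card V1) L m r (m + 2)) δ / 2) (M : ℕ)
    (hM : 2 ≤ cGrH (Nat.card V1) m r N0 (nColH (Nat.card V1) L m r (m + 2)) δ * M) :
    |∑ x ∈ Y, (if Fn x = 0 then (1 : ℝ) else -1)| ≤
      (δ + 2 ^ M * γ) * Fintype.card (∀ i, X i) := by
  have := hS.fin1
  have hcV : 0 < Nat.card V1 := Nat.card_pos
  obtain ⟨Co, h1, h2⟩ := card_colH (H := H) (kk := kk) hS hΓ hta x0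
  have h3 : ∀ v ∈ hS.good_fin.toFinset,
      0 < Nat.card V1 ^ m * Nat.card (invD S (Γ.chi x0) v) := by
    intro v _
    have := finite_invD hS (Grid.chi_hom hS hΓ x0) v
    have h4 : 0 < Nat.card (invD S (Γ.chi x0) v) := Nat.card_pos
    positivity
  have hL0 : 0 < L := lt_of_lt_of_le (prod_pos h3) hL
  have hcard : Fintype.card (Option (Option (Fin m))) = m + 2 := by simp
  refine core_grid_end (τ := ta.cor H Γ m kk) hS hΓ (cor_ok hta) hm hσ hcl hee N0 hN0 hsel Co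
    (nColH (Nat.card V1) L m r (m + 2)) (by unfold nColH; positivity) (h1.trans ?_) h2 pl hC po
    hpo hpl χ hχ cc D hD hfin hX B0 hB0 hB0D hpoD rr hrr Y hY γ hγ0 hγ δ hδ hc M hM
  rw [hcard]
  unfold nColH
  gcongr

end rigid

end Pool.Agent.SmH
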